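import Pool.Agent.P.MP_c45a97_an.Final

/-! The two-weight testing theorem for the Bergman projection. -/

namespace Pool.Agent.Results.MP_c45a97_an.TwoWeightT1

open Pool.Agent.P.MP_c45a97_an

theorem result : ∀ w σ : ℂ → ℝ, IsWeight w → IsWeight σ → (CondB w σ ↔ CondT w σ) :=
  fun _ _ hw hσ => condB_iff_condT hw hσ

end Pool.Agent.Results.MP_c45a97_an.TwoWeightT1
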